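import Mathlib
import Pool.Agent.helper58.DC.Spec1

/-! Module dq:IRF (MP_baa4d7_al): finiteness, degrees and norm of irreducible characters. -/

set_option autoImplicit false

namespace Pool.Agent.helper11.DC

open Pool.Agent.helper58.DC

/-- orthonormality -/
theorem IRF_orth (H : Type) [Group H] [Fintype H] (χ ψ : H → ℂ) (hχ : χ ∈ Irr H) (hψ : ψ ∈ Irr H) :
    (χ = ψ → (Nat.card H : ℂ)⁻¹ * ∑ g : H, χ g * ψ g⁻¹ = 1) ∧
    (χ ≠ ψ → (Nat.card H : ℂ)⁻¹ * ∑ g : H, χ g * ψ g⁻¹ = 0) := by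
  obtain ⟨V, _, _, _, ρ, hρ, rfl⟩ := hχ
  obtain ⟨W, _, _, _, σ, hσ, rfl⟩ := hψ
  have hc : (Nat.card H : ℂ) ≠ 0 := by
    exact_mod_cast Nat.card_pos.ne'
  letI : Invertible (Nat.card H : ℂ) := invertibleOfNonzero hc
  constructor
  · intro h
    rw [← h, Representation.char_orthonormal ρ ρ, if_pos ⟨Representation.Equiv.refl ρ⟩]
  · intro h
    rw [Representation.char_orthonormal ρ σ, if_neg]
    rintro ⟨φ⟩
    exact h (Representation.char_iso φ).symm

theorem IRF_fin (H : Type) [Group H] [Fintype H] : (Irr H).Finite := by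
  classical
  have hli : LinearIndependent ℂ (fun χ : Irr H => (χ : H → ℂ)) := by
    rw [linearIndependent_iff']
    intro s c hs j hj
    have h1 : (Nat.card H : ℂ)⁻¹ * ∑ g : H, (∑ i ∈ s, c i • (i : H → ℂ)) g * (j : H → ℂ) g⁻¹ = 0 := by
      rw [hs]
      simp
    have h2 : (Nat.card H : ℂ)⁻¹ * ∑ g : H, (∑ i ∈ s, c i • (i : H → ℂ)) g * (j : H → ℂ) g⁻¹ =
        ∑ i ∈ s, c i * ((Nat.card H : ℂ)⁻¹ * ∑ g : H, (i : H → ℂ) g * (j : H → ℂ) g⁻¹) := by
      rw [Finset.mul_sum]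
      simp only [Finset.sum_apply, Pi.smul_apply, smul_eq_mul, Finset.sum_mul, Finset.mul_sum]
      rw [Finset.sum_comm]
      refine Finset.sum_congr rfl fun i _ => Finset.sum_congr rfl fun g _ => ?_
      ring
    rw [h2, Finset.sum_eq_single j] at h1
    · rw [(IRF_orth H _ _ j.2 j.2).1 rfl, mul_one] at h1
      exact h1
    · intro i _ hij
      rw [(IRF_orth H _ _ i.2 j.2).2 (fun h => hij (Subtype.ext h)), mul_zero]
    · intro h
      exact absurd hj h
  exact hli.setFinite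

theorem IRF : IRF_stmt := by
  intro H _ _
  classical
  haveI := Fintype.ofFinite H
  have hc : (Nat.card H : ℂ) ≠ 0 := by
    exact_mod_cast Nat.card_pos.ne'
  refine ⟨IRF_fin H, ?_⟩
  intro χ hχ
  have hn := (IRF_orth H χ χ hχ hχ).1 rfl
  obtain ⟨V, _, _, _, ρ, hρ, rfl⟩ := hχ
  refine ⟨⟨Module.finrank ℂ V, ?_, Representation.char_one ρ⟩, fun g h => Representation.char_conj ρ g h,
    ?_⟩
  · rw [Nat.pos_iff_ne_zero]
    intro h0
    have hV : Subsingleton V := Module.finrank_zero_iff.mp h0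
    have h1 : ∀ g, ρ.character g = 0 := by
      intro g
      have h2 : ρ g = 0 := by
        ext v
        exact Subsingleton.elim _ _
      show LinearMap.trace ℂ V (ρ g) = 0
      rw [h2, map_zero]
    simp [h1] at hn
  · rw [finsum_eq_sum_of_fintype]
    rw [inv_mul_eq_iff_eq_mul₀ hc, mul_one] at hn
    exact hn

end Pool.Agent.helper11.DC
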