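import Pool.Agent.helper53.DC.SpecA

/-!
# Module dc:A12
-/

set_option autoImplicit false

namespace Pool.Agent.helper11.DC

open Pool.Agent.helper53.DC

/-- A12 -/
theorem A12 (h3 : A3_stmt) : A12_stmt := by
  intro B W _ M cs r v x x' hx hx' hr hv
  have hne : v ≠ r := by
    rintro rfl
    exact hr hv
  have key : ∀ y ∈ Car cs r, (cw cs).Sep r y (r.1 * y) ∧ ¬ (cw cs).Sep v y (r.1 * y) := by
    rintro y ⟨i, hi⟩
    have hw : r = wall cs y i := by
      apply Subtype.ext
      rw [wall_val, ← hi]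
      group
    rw [hi, h3 cs r y i, h3 cs v y i]
    exact ⟨hw, fun h => hne (h.trans hw.symm)⟩
  intro b b'
  have step : ∀ y ∈ Car cs r, (y ∈ (cw cs).H v ↔ b = true) →
      ((cw cs).hs v b ∩ (cw cs).hs r b').Nonempty := by
    intro y hy hyb
    obtain ⟨k1, k2⟩ := key y hy
    by_cases hb : (y ∈ (cw cs).H r ↔ b' = true)
    · exact ⟨y, hyb, hb⟩
    · refine ⟨r.1 * y, ?_, ?_⟩
      · show (r.1 * y ∈ (cw cs).H v ↔ b = true)
        unfold WS.Sep at k2
        tauto
      · show (r.1 * y ∈ (cw cs).H r ↔ b' = true)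
        unfold WS.Sep at k1
        tauto
  by_cases hxb : (x ∈ (cw cs).H v ↔ b = true)
  · exact step x hx hxb
  · refine step x' hx' ?_
    unfold WS.Sep at hv
    tauto

end Pool.Agent.helper11.DC
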